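import Pool.Agent.Lib.MP_1ebeae_al.BGFinal

/-!
The Baumslag-Gersten group `G = ⟨a, t | (t a t⁻¹) a (t a t⁻¹)⁻¹ a⁻²⟩` has undecidable single
one-variable equation problem (`a`, `t` are the generators `0`, `1`).

An input is a word over the letters `some i` (generator `i`) and `none` (the variable); a pair
`(s, true)` is the letter `s` and `(s, false)` is its inverse.
-/

theorem Pool.Agent.Results.MP_1ebeae_al.BaumslagGersten.result :
    ∃ r : FreeGroup (Fin 2),
      r = (FreeGroup.of 1 * FreeGroup.of 0 * (FreeGroup.of 1)⁻¹) * FreeGroup.of 0 *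
          (FreeGroup.of 1 * FreeGroup.of 0 * (FreeGroup.of 1)⁻¹)⁻¹ * (FreeGroup.of 0 ^ 2)⁻¹ ∧
      ¬ ComputablePred fun w : List (Option (Fin 2) × Bool) =>
        ∃ g : PresentedGroup ({r} : Set (FreeGroup (Fin 2))),
          FreeGroup.lift (fun o : Option (Fin 2) => o.elim g PresentedGroup.of)
            (FreeGroup.mk w) = 1 :=
  ⟨Pool.Agent.Lib.MP_1ebeae_al.rel2, by decide, Pool.Agent.Lib.MP_1ebeae_al.undecidable2⟩
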